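import Mathlib

set_option autoImplicit false

/-!
# Separation of consecutive memory sizes

Let `S` consist of `μ + 1` special points and the elements of `ℤ/N`. For `v ∈ (ℤ/N)^(μ+1)` the
function `f_v` has the value `v_i` (a number less than `N`) at the special point `i`, the
value `N` at `∑ v_i ∈ ℤ/N`, and the value `-1` at the other elements of `ℤ/N`. With memory `μ + 1` one
queries the special points and then the maximiser. With memory `μ`, each of the first
`μ + 2` queries misses at least one of the numbers `v_i` (up to a factor accounting for the choice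
of the removed point), so it is the maximiser with probability `O(1/N)` only.
-/

namespace Pool.Agent.Results.MP_baa74b_lc.MemorySeparation

open scoped ENNReal

/-! ### Definitions -/

/-- A `(μ+1)` memory-restricted black-box algorithm on the search space `S`. -/
structure Alg (S : Type) (μ : ℕ) where
  /-- The distribution of the initial points. -/
  init : PMF (Fin μ → S)
  /-- The distribution of the next query, given the memory. -/
  query : Multiset (S × ℝ) → PMF S
  /-- The distribution of the pair to be removed. -/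
  remove : Multiset (S × ℝ) → PMF (S × ℝ)
  remove_mem : ∀ X : Multiset (S × ℝ), X.card = μ + 1 → ∀ p ∈ (remove X).support, p ∈ X

/-- The maximisers of `f`. -/
def Maximiser {S : Type} (f : S → ℝ) (s : S) : Prop := ∀ t, f t ≤ f s

/-- The multiset of the pairs `(x_i, f(x_i))`. -/
def mem {S : Type} {n : ℕ} (f : S → ℝ) (x : Fin n → S) : Multiset (S × ℝ) :=
  (Finset.univ.val : Multiset (Fin n)).map fun i => (x i, f (x i))

open Classical in
/-- The multiset `X` with one copy of `p` removed. -/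
noncomputable def del {S : Type} (X : Multiset (S × ℝ)) (p : S × ℝ) : Multiset (S × ℝ) :=
  X.erase p

open Classical in
/-- The probability that none of the first `r` rounds, starting with memory `X`, queries a
maximiser of `f`. In a round a point `y` is queried, the pair `(y, f y)` is added to the memory,
and then a pair `p` is removed. -/
noncomputable def alive {S : Type} [Fintype S] {μ : ℕ} (A : Alg S μ) (f : S → ℝ) :
    ℕ → Multiset (S × ℝ) → ℝ≥0∞
  | 0, _ => 1
  | r + 1, X => ∑ y : S, A.query X y * (if Maximiser f y then 0 else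
      ∑' p : S × ℝ, A.remove ((y, f y) ::ₘ X) p * alive A f r (del ((y, f y) ::ₘ X) p))

open Classical in
/-- The expectation of the number `T(A,f)` of queries up to and including the first query
of a maximiser of `f`. If one of the initial points `x` is a maximiser, then it is the least number
of such a point (the points are numbered from `1`); otherwise it is `μ` plus the number of rounds,
whose expectation is the sum over `r` of the probabilities that the first `r` rounds do not query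
a maximiser. -/
noncomputable def expT {S : Type} [Fintype S] {μ : ℕ} (A : Alg S μ) (f : S → ℝ) : ℝ≥0∞ :=
  ∑ x : Fin μ → S, A.init x * (if ∃ i, Maximiser f (x i)
    then ((sInf {j : ℕ | ∃ i : Fin μ, (i : ℕ) = j ∧ Maximiser f (x i)} : ℕ) : ℝ≥0∞) + 1
    else (μ : ℝ≥0∞) + ∑' r : ℕ, alive A f r (mem f x))

/-- The `(μ+1)` memory-restricted black-box complexity of the class `F`. -/
noncomputable def complexity {S : Type} [Fintype S] (μ : ℕ) (F : Set (S → ℝ)) : ℝ≥0∞ :=
  ⨅ A : Alg S μ, ⨆ f ∈ F, expT A f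

/-! ### The class -/

section Class

variable (μ K : ℕ)

/-- The search space. -/
abbrev Sp : Type := Fin (μ + 1) ⊕ ZMod (K + 1)

variable {μ K}

/-- The functions of the class. -/
noncomputable def fv (v : Fin (μ + 1) → ZMod (K + 1)) : Sp μ K → ℝ
  | Sum.inl i => ((v i).val : ℝ)
  | Sum.inr a => if a = ∑ i, v i then (K + 1 : ℝ) else -1

/-- The functions without their maximum. -/
noncomputable def gv (v : Fin (μ + 1) → ZMod (K + 1)) : Sp μ K → ℝ
  | Sum.inl i => ((v i).val : ℝ)
  | Sum.inr _ => -1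

/-- The maximiser. -/
def mx (v : Fin (μ + 1) → ZMod (K + 1)) : Sp μ K := Sum.inr (∑ i, v i)

theorem val_lt (v : Fin (μ + 1) → ZMod (K + 1)) (i : Fin (μ + 1)) :
    ((v i).val : ℝ) < (K + 1 : ℝ) := by
  have := ZMod.val_lt (v i)
  exact_mod_cast this

theorem maximiser_iff (v : Fin (μ + 1) → ZMod (K + 1)) (s : Sp μ K) :
    Maximiser (fv v) s ↔ s = mx v := by
  have hm : fv v (mx v) = (K + 1 : ℝ) := by simp [fv, mx]
  have hK : (0 : ℝ) ≤ K := Nat.cast_nonneg K
  constructor
  · intro h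
    have h1 := h (mx v)
    rw [hm] at h1
    rcases s with i | a
    · have h2 := val_lt v i
      have h3 : fv v (Sum.inl i) = ((v i).val : ℝ) := rfl
      rw [h3] at h1
      linarith
    · by_contra hne
      have h2 : a ≠ ∑ i, v i := fun h => hne (by rw [h, mx])
      have h3 : fv v (Sum.inr a) = -1 := by simp [fv, h2]
      rw [h3] at h1
      linarith
  · rintro rfl t
    rw [hm]
    rcases t with i | a
    · exact (val_lt v i).le
    · have h3 : fv v (Sum.inr a) = if a = ∑ i, v i then (K + 1 : ℝ) else -1 := rfl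
      rw [h3]
      split_ifs
      · exact le_rfl
      · linarith

theorem fv_eq_gv (v : Fin (μ + 1) → ZMod (K + 1)) {s : Sp μ K} (hs : s ≠ mx v) :
    fv v s = gv v s := by
  rcases s with i | a
  · rfl
  · have h2 : a ≠ ∑ i, v i := fun h => hs (by rw [h, mx])
    simp [fv, gv, h2]

theorem mem_cons {S : Type} {n : ℕ} (f : S → ℝ) (y : S) (x : Fin n → S) :
    mem f (Fin.cons y x : Fin (n + 1) → S) = (y, f y) ::ₘ mem f x := by
  unfold mem
  rw [Fin.univ_succ]
  simp [Function.comp_def]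

theorem del_mem {S : Type} {n : ℕ} (f : S → ℝ) (z : Fin n → S) (j : Fin n) :
    del (mem f z) (z j, f (z j)) = (Finset.univ.erase j).val.map fun i => (z i, f (z i)) := by
  classical
  unfold del mem
  rw [Finset.erase_val, Multiset.map_erase_of_mem _ _ (Finset.mem_univ_val j)]

theorem card_mem {S : Type} {n : ℕ} (f : S → ℝ) (x : Fin n → S) : (mem f x).card = n := by
  simp [mem]

/-! ### The one-time pad -/

theorem pad (G : (Fin (μ + 1) → ZMod (K + 1)) → ZMod (K + 1) → ℝ≥0∞) (i : Fin (μ + 1))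
    (hG : ∀ v c, G (v + Pi.single i c) = G v) (hsum : ∀ v, ∑ a, G v a ≤ 1) :
    ∑ v, G v (∑ j, v j) ≤ ((K : ℝ≥0∞) + 1) ^ μ := by
  have h1 : ∀ c : ZMod (K + 1), ∑ v, G v (∑ j, v j) = ∑ v, G v (∑ j, v j + c) := by
    intro c
    rw [← Equiv.sum_comp (Equiv.addRight (Pi.single i c : Fin (μ + 1) → ZMod (K + 1)))]
    refine Finset.sum_congr rfl fun v _ => ?_
    simp only [Equiv.coe_addRight]
    rw [hG]
    congr 1
    simp only [Pi.add_apply, Finset.sum_add_distrib]
    rw [Finset.sum_pi_single']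
    simp
  have h2 : ((K : ℝ≥0∞) + 1) * ∑ v, G v (∑ j, v j) ≤ ((K : ℝ≥0∞) + 1) * ((K : ℝ≥0∞) + 1) ^ μ := by
    calc ((K : ℝ≥0∞) + 1) * ∑ v, G v (∑ j, v j)
        = ∑ _c : ZMod (K + 1), ∑ v, G v (∑ j, v j) := by
          rw [Finset.sum_const, Finset.card_univ, ZMod.card, nsmul_eq_mul]
          push_cast
          rfl
      _ = ∑ c : ZMod (K + 1), ∑ v, G v (∑ j, v j + c) :=
          Finset.sum_congr rfl fun c _ => h1 c
      _ = ∑ v, ∑ c : ZMod (K + 1), G v (∑ j, v j + c) := Finset.sum_comm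
      _ = ∑ v, ∑ a, G v a := by
          refine Finset.sum_congr rfl fun v _ => ?_
          exact Equiv.sum_comp (Equiv.addLeft (∑ j, v j)) (G v)
      _ ≤ ∑ _v : Fin (μ + 1) → ZMod (K + 1), 1 := Finset.sum_le_sum fun v _ => hsum v
      _ = ((K : ℝ≥0∞) + 1) * ((K : ℝ≥0∞) + 1) ^ μ := by
          rw [Finset.sum_const, Finset.card_univ, Fintype.card_fun, ZMod.card, Fintype.card_fin,
            nsmul_eq_mul, mul_one, ← pow_succ']
          push_cast
          rfl
  have h3 : ((K : ℝ≥0∞) + 1) ≠ 0 := by simp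
  have h4 : ((K : ℝ≥0∞) + 1) ≠ ⊤ := by simp
  exact (ENNReal.mul_le_mul_iff_right h3 h4).mp h2

theorem gv_shift {v : Fin (μ + 1) → ZMod (K + 1)} {i : Fin (μ + 1)} {c : ZMod (K + 1)}
    {s : Sp μ K} (hs : s ≠ Sum.inl i) : gv (v + Pi.single i c) s = gv v s := by
  rcases s with j | a
  · have hj : j ≠ i := fun h => hs (by rw [h])
    simp [gv, Pi.single_eq_of_ne hj]
  · rfl

theorem map_shift {v : Fin (μ + 1) → ZMod (K + 1)} {i : Fin (μ + 1)} {c : ZMod (K + 1)}
    {n : ℕ} (z : Fin n → Sp μ K) (M : Finset (Fin n)) (hz : ∀ j ∈ M, z j ≠ Sum.inl i) :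
    (M.val.map fun j => (z j, gv (v + Pi.single i c) (z j))) =
      M.val.map fun j => (z j, gv v (z j)) := by
  refine Multiset.map_congr rfl fun j hj => ?_
  rw [gv_shift (hz j hj)]

/-- Some special point is missing. -/
theorem exists_missing {n : ℕ} (z : Fin n → Sp μ K) (M : Finset (Fin n)) (hM : M.card ≤ μ) :
    ∃ i : Fin (μ + 1), ∀ j ∈ M, z j ≠ Sum.inl i := by
  classical
  by_contra h
  push Not at h
  choose w hw1 hw2 using h
  have h1 : Function.Injective w := by
    intro i i' hii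
    have h3 := hw2 i
    rw [hii, hw2 i'] at h3
    exact (Sum.inl_injective h3).symm
  have h2 : (Finset.univ.image w).card ≤ M.card :=
    Finset.card_le_card (Finset.image_subset_iff.mpr fun i _ => hw1 i)
  rw [Finset.card_image_of_injective _ h1, Finset.card_univ, Fintype.card_fin] at h2
  omega

/-! ### Sums of probabilities -/

theorem sum_pmf {α : Type} [Fintype α] (q : PMF α) : ∑ a, q a = 1 := by
  rw [← tsum_fintype (L := .unconditional _)]
  exact q.tsum_coe

theorem sum_inr_le {T : Type} [Fintype T] {U : Type} [Fintype U] (q : PMF (U ⊕ T)) :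
    ∑ a, q (Sum.inr a) ≤ 1 := by
  rw [← sum_pmf q, Fintype.sum_sum_type]
  exact le_add_self

theorem tsum_le_sum_of_support {α : Type} {n : ℕ} (q : PMF α) (w : Fin n → α)
    (hw : ∀ p ∈ q.support, ∃ j, w j = p) (h : α → ℝ≥0∞) :
    ∑' p, q p * h p ≤ ∑ j, h (w j) := by
  calc ∑' p, q p * h p ≤ ∑' p, q p * ∑ j, h (w j) := by
        refine ENNReal.tsum_le_tsum fun p => ?_
        by_cases hp : p ∈ q.support
        · obtain ⟨j, hj⟩ := hw p hp
          gcongr
          rw [← hj]
          exact Finset.single_le_sum (f := fun j => h (w j)) (fun _ _ => zero_le)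
            (Finset.mem_univ j)
        · rw [PMF.mem_support_iff, not_not] at hp
          rw [hp, zero_mul]
          exact zero_le
    _ = ∑ j, h (w j) := by rw [ENNReal.tsum_mul_right, q.tsum_coe, one_mul]

/-- The second step: the probability of a query of `m`, given that `y` was queried with the
value `r`. -/
noncomputable def next {S : Type} {n : ℕ} (A : Alg S n) (X : Multiset (S × ℝ)) (y : S) (r : ℝ)
    (m : S) : ℝ≥0∞ :=
  ∑' p : S × ℝ, A.remove ((y, r) ::ₘ X) p * A.query (del ((y, r) ::ₘ X) p) m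

variable (A : Alg (Sp μ K) μ)

open Classical in
/-- An upper bound for the probability of a maximiser among the first `μ + 2` queries. -/
noncomputable def bad (v : Fin (μ + 1) → ZMod (K + 1)) (x : Fin μ → Sp μ K) : ℝ≥0∞ :=
  (∑ i, if x i = mx v then 1 else 0) + A.query (mem (gv v) x) (mx v) +
    ∑ y, A.query (mem (gv v) x) y * next A (mem (gv v) x) y (gv v y) (mx v)

theorem sum_next_le (X : Multiset (Sp μ K × ℝ)) (y : Sp μ K) (r : ℝ) :
    ∑ a, next A X y r (Sum.inr a) ≤ 1 := by
  unfold next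
  rw [← Summable.tsum_finsetSum (fun _ _ => ENNReal.summable)]
  calc ∑' p, ∑ a, A.remove ((y, r) ::ₘ X) p * A.query (del ((y, r) ::ₘ X) p) (Sum.inr a)
      ≤ ∑' p, A.remove ((y, r) ::ₘ X) p := by
        refine ENNReal.tsum_le_tsum fun p => ?_
        rw [← Finset.mul_sum]
        calc _ ≤ A.remove ((y, r) ::ₘ X) p * 1 := by
              gcongr
              exact sum_inr_le _
          _ = _ := mul_one _
    _ = 1 := PMF.tsum_coe _

theorem sum_bad (x : Fin μ → Sp μ K) :
    ∑ v, bad A v x ≤ (2 * (μ : ℝ≥0∞) + 3) * ((K : ℝ≥0∞) + 1) ^ μ := by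
  classical
  obtain ⟨k, hk⟩ := exists_missing x Finset.univ (by simp)
  have hk' : ∀ j, x j ≠ Sum.inl k := fun j => hk j (Finset.mem_univ _)
  have hinv : ∀ (v : Fin (μ + 1) → ZMod (K + 1)) (c : ZMod (K + 1)),
      mem (gv (v + Pi.single k c)) x = mem (gv v) x := fun v c => map_shift x Finset.univ hk
  -- the initial queries
  have h1 : ∑ v : Fin (μ + 1) → ZMod (K + 1), (∑ i, if x i = mx v then (1 : ℝ≥0∞) else 0) ≤
      μ * ((K : ℝ≥0∞) + 1) ^ μ := by
    rw [Finset.sum_comm]
    calc ∑ i, ∑ v : Fin (μ + 1) → ZMod (K + 1), (if x i = mx v then (1 : ℝ≥0∞) else 0)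
        ≤ ∑ _i : Fin μ, ((K : ℝ≥0∞) + 1) ^ μ := by
          refine Finset.sum_le_sum fun i _ => ?_
          refine pad (fun _ a => if x i = Sum.inr a then (1 : ℝ≥0∞) else 0) k
            (fun v c => rfl) (fun v => ?_)
          rcases hx : x i with j | b
          · simp
          · simp
      _ = μ * ((K : ℝ≥0∞) + 1) ^ μ := by
          rw [Finset.sum_const, Finset.card_univ, Fintype.card_fin, nsmul_eq_mul]
  -- the first round
  have h2 : ∑ v : Fin (μ + 1) → ZMod (K + 1), A.query (mem (gv v) x) (mx v) ≤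
      ((K : ℝ≥0∞) + 1) ^ μ := by
    refine pad (fun v a => A.query (mem (gv v) x) (Sum.inr a)) k (fun v c => ?_) (fun v => ?_)
    · funext a
      rw [hinv]
    · exact sum_inr_le _
  -- the second round, when the missing point is not queried
  have h3 : ∑ v : Fin (μ + 1) → ZMod (K + 1), ∑ y ∈ Finset.univ.erase (Sum.inl k : Sp μ K),
      A.query (mem (gv v) x) y * next A (mem (gv v) x) y (gv v y) (mx v) ≤
      ((K : ℝ≥0∞) + 1) ^ μ := by
    refine pad (fun v a => ∑ y ∈ Finset.univ.erase (Sum.inl k : Sp μ K),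
      A.query (mem (gv v) x) y * next A (mem (gv v) x) y (gv v y) (Sum.inr a)) k
      (fun v c => ?_) (fun v => ?_)
    · funext a
      refine Finset.sum_congr rfl fun y hy => ?_
      rw [hinv, gv_shift (Finset.mem_erase.mp hy).1]
    · rw [Finset.sum_comm]
      calc ∑ y ∈ Finset.univ.erase (Sum.inl k : Sp μ K), ∑ a,
            A.query (mem (gv v) x) y * next A (mem (gv v) x) y (gv v y) (Sum.inr a)
          ≤ ∑ y ∈ Finset.univ.erase (Sum.inl k : Sp μ K), A.query (mem (gv v) x) y := by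
            refine Finset.sum_le_sum fun y _ => ?_
            rw [← Finset.mul_sum]
            calc _ ≤ A.query (mem (gv v) x) y * 1 := by
                  gcongr
                  exact sum_next_le _ _ _ _
              _ = _ := mul_one _
        _ ≤ ∑ y, A.query (mem (gv v) x) y :=
            Finset.sum_le_sum_of_subset (Finset.subset_univ _)
        _ = 1 := sum_pmf _
  -- the second round, when the missing point is queried
  have h4 : ∑ v : Fin (μ + 1) → ZMod (K + 1), A.query (mem (gv v) x) (Sum.inl k) *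
      next A (mem (gv v) x) (Sum.inl k) (gv v (Sum.inl k)) (mx v) ≤
      (μ + 1) * ((K : ℝ≥0∞) + 1) ^ μ := by
    let z : Fin (μ + 1) → Sp μ K := Fin.cons (Sum.inl k) x
    have hz : ∀ v : Fin (μ + 1) → ZMod (K + 1),
        (Sum.inl k, gv v (Sum.inl k)) ::ₘ mem (gv v) x = mem (gv v) z := by
      intro v
      exact (mem_cons _ _ _).symm
    calc ∑ v : Fin (μ + 1) → ZMod (K + 1), A.query (mem (gv v) x) (Sum.inl k) *
        next A (mem (gv v) x) (Sum.inl k) (gv v (Sum.inl k)) (mx v)
        ≤ ∑ v : Fin (μ + 1) → ZMod (K + 1), ∑ j : Fin (μ + 1),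
            A.query ((Finset.univ.erase j).val.map fun i => (z i, gv v (z i))) (mx v) := by
          refine Finset.sum_le_sum fun v _ => ?_
          calc _ ≤ 1 * next A (mem (gv v) x) (Sum.inl k) (gv v (Sum.inl k)) (mx v) := by
                gcongr
                exact PMF.coe_le_one _ _
            _ ≤ _ := by
                rw [one_mul]
                unfold next
                rw [hz]
                refine (tsum_le_sum_of_support (A.remove (mem (gv v) z))
                  (fun j => (z j, gv v (z j))) ?_ _).trans ?_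
                · intro p hp
                  have := A.remove_mem _ (card_mem _ _) p hp
                  unfold mem at this
                  rw [Multiset.mem_map] at this
                  obtain ⟨j, -, hj⟩ := this
                  exact ⟨j, hj⟩
                · refine Finset.sum_le_sum fun j _ => le_of_eq ?_
                  rw [del_mem]
      _ = ∑ j : Fin (μ + 1), ∑ v : Fin (μ + 1) → ZMod (K + 1),
            A.query ((Finset.univ.erase j).val.map fun i => (z i, gv v (z i))) (mx v) :=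
          Finset.sum_comm
      _ ≤ ∑ _j : Fin (μ + 1), ((K : ℝ≥0∞) + 1) ^ μ := by
          refine Finset.sum_le_sum fun j _ => ?_
          obtain ⟨i, hi⟩ := exists_missing z (Finset.univ.erase j) (by simp)
          refine pad (fun v a => A.query ((Finset.univ.erase j).val.map
            fun i => (z i, gv v (z i))) (Sum.inr a)) i (fun v c => ?_) (fun v => ?_)
          · funext a
            rw [map_shift z _ hi]
          · exact sum_inr_le _
      _ = (μ + 1) * ((K : ℝ≥0∞) + 1) ^ μ := by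
          rw [Finset.sum_const, Finset.card_univ, Fintype.card_fin, nsmul_eq_mul]
          push_cast
          rfl
  calc ∑ v, bad A v x
      = ∑ v : Fin (μ + 1) → ZMod (K + 1), (∑ i, if x i = mx v then (1 : ℝ≥0∞) else 0) +
        ∑ v : Fin (μ + 1) → ZMod (K + 1), A.query (mem (gv v) x) (mx v) +
        (∑ v : Fin (μ + 1) → ZMod (K + 1), A.query (mem (gv v) x) (Sum.inl k) *
          next A (mem (gv v) x) (Sum.inl k) (gv v (Sum.inl k)) (mx v) +
        ∑ v : Fin (μ + 1) → ZMod (K + 1), ∑ y ∈ Finset.univ.erase (Sum.inl k : Sp μ K),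
          A.query (mem (gv v) x) y * next A (mem (gv v) x) y (gv v y) (mx v)) := by
        rw [← Finset.sum_add_distrib, ← Finset.sum_add_distrib, ← Finset.sum_add_distrib]
        refine Finset.sum_congr rfl fun v _ => ?_
        unfold bad
        rw [Finset.add_sum_erase Finset.univ (fun y => A.query (mem (gv v) x) y *
          next A (mem (gv v) x) y (gv v y) (mx v)) (Finset.mem_univ (Sum.inl k : Sp μ K))]
    _ ≤ μ * ((K : ℝ≥0∞) + 1) ^ μ + ((K : ℝ≥0∞) + 1) ^ μ +
        ((μ + 1) * ((K : ℝ≥0∞) + 1) ^ μ + ((K : ℝ≥0∞) + 1) ^ μ) := by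
        gcongr
    _ = (2 * (μ : ℝ≥0∞) + 3) * ((K : ℝ≥0∞) + 1) ^ μ := by ring

/-! ### The lower bound -/

theorem alive_one (v : Fin (μ + 1) → ZMod (K + 1)) (X : Multiset (Sp μ K × ℝ)) :
    alive A (fv v) 1 X + A.query X (mx v) = 1 := by
  classical
  unfold alive
  simp only [alive, mul_one, PMF.tsum_coe, maximiser_iff]
  rw [← Finset.add_sum_erase _ _ (Finset.mem_univ (mx v))]
  rw [if_pos rfl, mul_zero, zero_add, add_comm]
  conv_rhs => rw [← sum_pmf (A.query X), ← Finset.add_sum_erase _ _ (Finset.mem_univ (mx v))]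
  congr 1
  refine Finset.sum_congr rfl fun y hy => ?_
  rw [if_neg (Finset.mem_erase.mp hy).1, mul_one]

theorem alive_two (v : Fin (μ + 1) → ZMod (K + 1)) (X : Multiset (Sp μ K × ℝ)) :
    alive A (fv v) 2 X + (A.query X (mx v) +
      ∑ y ∈ Finset.univ.erase (mx v), A.query X y * next A X y (fv v y) (mx v)) = 1 := by
  classical
  have h : alive A (fv v) 2 X = ∑ y ∈ Finset.univ.erase (mx v), A.query X y *
      ∑' p : Sp μ K × ℝ, A.remove ((y, fv v y) ::ₘ X) p *
        alive A (fv v) 1 (del ((y, fv v y) ::ₘ X) p) := by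
    rw [alive]
    rw [← Finset.add_sum_erase _ _ (Finset.mem_univ (mx v))]
    rw [if_pos ((maximiser_iff v _).mpr rfl), mul_zero, zero_add]
    refine Finset.sum_congr rfl fun y hy => ?_
    rw [if_neg (fun h => (Finset.mem_erase.mp hy).1 ((maximiser_iff v _).mp h))]
  rw [h, add_left_comm, ← Finset.sum_add_distrib]
  conv_rhs => rw [← sum_pmf (A.query X), ← Finset.add_sum_erase _ _ (Finset.mem_univ (mx v))]
  congr 1
  refine Finset.sum_congr rfl fun y hy => ?_
  unfold next
  rw [← mul_add, ← ENNReal.tsum_add]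
  simp only [← mul_add, alive_one, mul_one, PMF.tsum_coe]

theorem alive_two_le (v : Fin (μ + 1) → ZMod (K + 1)) (X : Multiset (Sp μ K × ℝ)) :
    alive A (fv v) 2 X ≤ alive A (fv v) 1 X := by
  classical
  have hle : ∀ Y, alive A (fv v) 1 Y ≤ 1 := by
    intro Y
    rw [← alive_one A v Y]
    exact le_self_add
  rw [alive, alive]
  refine Finset.sum_le_sum fun y _ => ?_
  gcongr
  split_ifs
  · exact le_rfl
  · refine ENNReal.tsum_le_tsum fun p => ?_
    gcongr
    exact hle _

theorem alive_one_le (v : Fin (μ + 1) → ZMod (K + 1)) (X : Multiset (Sp μ K × ℝ)) :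
    alive A (fv v) 1 X ≤ 1 := by
  rw [← alive_one A v X]
  exact le_self_add

theorem round_lower (v : Fin (μ + 1) → ZMod (K + 1)) (X : Multiset (Sp μ K × ℝ)) :
    ((μ : ℝ≥0∞) + 3) * alive A (fv v) 2 X ≤ (μ : ℝ≥0∞) + ∑' r : ℕ, alive A (fv v) r X := by
  have h1 : ∑ r ∈ Finset.range 3, alive A (fv v) r X ≤ ∑' r : ℕ, alive A (fv v) r X :=
    ENNReal.sum_le_tsum _
  have h2 := alive_two_le A v X
  have h3 := alive_one_le A v X
  have h4 : alive A (fv v) 0 X = 1 := rfl
  calc ((μ : ℝ≥0∞) + 3) * alive A (fv v) 2 X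
      = μ * alive A (fv v) 2 X + (alive A (fv v) 2 X + alive A (fv v) 2 X +
        alive A (fv v) 2 X) := by ring
    _ ≤ μ * 1 + (1 + alive A (fv v) 1 X + alive A (fv v) 2 X) := by
        gcongr
        · exact h2.trans h3
        · exact h2.trans h3
    _ = μ + ∑ r ∈ Finset.range 3, alive A (fv v) r X := by
        rw [mul_one, Finset.sum_range_succ, Finset.sum_range_succ, Finset.sum_range_one, h4]
    _ ≤ _ := by gcongr

theorem lower_x (v : Fin (μ + 1) → ZMod (K + 1)) (x : Fin μ → Sp μ K)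
    (hx : ∀ i, x i ≠ mx v) :
    ((μ : ℝ≥0∞) + 3) ≤ ((μ : ℝ≥0∞) + ∑' r : ℕ, alive A (fv v) r (mem (fv v) x)) +
      ((μ : ℝ≥0∞) + 3) * bad A v x := by
  classical
  have hmem : mem (fv v) x = mem (gv v) x := by
    unfold mem
    refine Multiset.map_congr rfl fun i _ => ?_
    rw [fv_eq_gv v (hx i)]
  rw [hmem]
  have h1 := alive_two A v (mem (gv v) x)
  have h2 : A.query (mem (gv v) x) (mx v) + ∑ y ∈ Finset.univ.erase (mx v),
      A.query (mem (gv v) x) y * next A (mem (gv v) x) y (fv v y) (mx v) ≤ bad A v x := by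
    unfold bad
    rw [add_assoc]
    refine le_trans ?_ le_add_self
    gcongr
    calc ∑ y ∈ Finset.univ.erase (mx v),
        A.query (mem (gv v) x) y * next A (mem (gv v) x) y (fv v y) (mx v)
        = ∑ y ∈ Finset.univ.erase (mx v),
          A.query (mem (gv v) x) y * next A (mem (gv v) x) y (gv v y) (mx v) := by
          refine Finset.sum_congr rfl fun y hy => ?_
          rw [fv_eq_gv v (Finset.mem_erase.mp hy).1]
      _ ≤ _ := Finset.sum_le_sum_of_subset (Finset.subset_univ _)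
  calc ((μ : ℝ≥0∞) + 3) = ((μ : ℝ≥0∞) + 3) * 1 := (mul_one _).symm
    _ = ((μ : ℝ≥0∞) + 3) * (alive A (fv v) 2 (mem (gv v) x) +
        (A.query (mem (gv v) x) (mx v) + ∑ y ∈ Finset.univ.erase (mx v),
          A.query (mem (gv v) x) y * next A (mem (gv v) x) y (fv v y) (mx v))) := by rw [h1]
    _ ≤ ((μ : ℝ≥0∞) + 3) * (alive A (fv v) 2 (mem (gv v) x) + bad A v x) := by gcongr
    _ = ((μ : ℝ≥0∞) + 3) * alive A (fv v) 2 (mem (gv v) x) +
        ((μ : ℝ≥0∞) + 3) * bad A v x := mul_add _ _ _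
    _ ≤ _ := by
        gcongr
        exact round_lower A v _

theorem mul_key {a b c I : ℝ≥0∞} (h : c ≤ I + c * b) : a * c ≤ a * I + c * (a * b) := by
  calc a * c ≤ a * (I + c * b) := by gcongr
    _ = a * I + c * (a * b) := by ring

theorem lower_v (v : Fin (μ + 1) → ZMod (K + 1)) :
    ((μ : ℝ≥0∞) + 3) ≤ expT A (fv v) +
      ((μ : ℝ≥0∞) + 3) * ∑ x, A.init x * bad A v x := by
  classical
  calc ((μ : ℝ≥0∞) + 3) = ∑ x, A.init x * ((μ : ℝ≥0∞) + 3) := by
        rw [← Finset.sum_mul, sum_pmf, one_mul]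
    _ ≤ ∑ x, (A.init x * (if ∃ i, Maximiser (fv v) (x i)
          then ((sInf {j : ℕ | ∃ i : Fin μ, (i : ℕ) = j ∧ Maximiser (fv v) (x i)} : ℕ) : ℝ≥0∞) + 1
          else (μ : ℝ≥0∞) + ∑' r : ℕ, alive A (fv v) r (mem (fv v) x)) +
          ((μ : ℝ≥0∞) + 3) * (A.init x * bad A v x)) := by
        refine Finset.sum_le_sum fun x _ => ?_
        have h1 : ((μ : ℝ≥0∞) + 3) ≤ (if ∃ i, Maximiser (fv v) (x i)
          then ((sInf {j : ℕ | ∃ i : Fin μ, (i : ℕ) = j ∧ Maximiser (fv v) (x i)} : ℕ) : ℝ≥0∞) + 1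
          else (μ : ℝ≥0∞) + ∑' r : ℕ, alive A (fv v) r (mem (fv v) x)) +
          ((μ : ℝ≥0∞) + 3) * bad A v x := by
          split_ifs with h
          · obtain ⟨i, hi⟩ := h
            rw [maximiser_iff] at hi
            have h2 : 1 ≤ bad A v x := by
              unfold bad
              rw [add_assoc]
              refine le_trans ?_ le_self_add
              calc (1 : ℝ≥0∞) = if x i = mx v then 1 else 0 := by rw [if_pos hi]
                _ ≤ _ := Finset.single_le_sum (f := fun i => if x i = mx v then (1 : ℝ≥0∞) else 0)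
                    (fun _ _ => zero_le) (Finset.mem_univ i)
            calc ((μ : ℝ≥0∞) + 3) = ((μ : ℝ≥0∞) + 3) * 1 := (mul_one _).symm
              _ ≤ ((μ : ℝ≥0∞) + 3) * bad A v x := by gcongr
              _ ≤ _ := le_add_self
          · push Not at h
            exact lower_x A v x fun i hi => h i ((maximiser_iff v _).mpr hi)
        exact mul_key h1
    _ = _ := by
        rw [Finset.sum_add_distrib, Finset.mul_sum]
        rfl

/-- Every algorithm with memory `μ` needs more than `μ + 2` queries for some function. -/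
theorem lower (hK : K = (μ + 3) * (2 * μ + 3)) :
    (μ : ℝ≥0∞) + 2 + ((K : ℝ≥0∞) + 1)⁻¹ ≤ ⨆ f ∈ Set.range (fv (μ := μ) (K := K)), expT A f := by
  classical
  set E : ℝ≥0∞ := ⨆ f ∈ Set.range (fv (μ := μ) (K := K)), expT A f with hE
  have hle : ∀ v, expT A (fv v) ≤ E := fun v => by
    rw [hE]
    exact le_iSup₂ (f := fun f (_ : f ∈ Set.range (fv (μ := μ) (K := K))) => expT A f) (fv v) ⟨v, rfl⟩
  have hc0 : ((K : ℝ≥0∞) + 1) ≠ 0 := by simp
  have hct : ((K : ℝ≥0∞) + 1) ≠ ⊤ := by simp
  have hp0 : ((K : ℝ≥0∞) + 1) ^ μ ≠ 0 := pow_ne_zero _ hc0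
  have hpt : ((K : ℝ≥0∞) + 1) ^ μ ≠ ⊤ := ENNReal.pow_ne_top hct
  have hcard : ∀ c : ℝ≥0∞, ∑ _v : Fin (μ + 1) → ZMod (K + 1), c =
      ((K : ℝ≥0∞) + 1) ^ μ * (((K : ℝ≥0∞) + 1) * c) := by
    intro c
    rw [Finset.sum_const, Finset.card_univ, Fintype.card_fun, ZMod.card, Fintype.card_fin,
      nsmul_eq_mul]
    push_cast
    ring
  have h1 : ((K : ℝ≥0∞) + 1) ^ μ * (((K : ℝ≥0∞) + 1) * ((μ : ℝ≥0∞) + 3)) ≤
      ((K : ℝ≥0∞) + 1) ^ μ * (((K : ℝ≥0∞) + 1) * E + K) := by
    calc ((K : ℝ≥0∞) + 1) ^ μ * (((K : ℝ≥0∞) + 1) * ((μ : ℝ≥0∞) + 3))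
        = ∑ _v : Fin (μ + 1) → ZMod (K + 1), ((μ : ℝ≥0∞) + 3) := (hcard _).symm
      _ ≤ ∑ v : Fin (μ + 1) → ZMod (K + 1), (E +
          ((μ : ℝ≥0∞) + 3) * ∑ x, A.init x * bad A v x) := by
          refine Finset.sum_le_sum fun v _ => (lower_v A v).trans ?_
          gcongr
          exact hle v
      _ = ((K : ℝ≥0∞) + 1) ^ μ * (((K : ℝ≥0∞) + 1) * E) +
          ((μ : ℝ≥0∞) + 3) * ∑ x, A.init x * ∑ v, bad A v x := by
          rw [Finset.sum_add_distrib, hcard, ← Finset.mul_sum, Finset.sum_comm]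
          congr 2
          refine Finset.sum_congr rfl fun x _ => ?_
          rw [Finset.mul_sum]
      _ ≤ ((K : ℝ≥0∞) + 1) ^ μ * (((K : ℝ≥0∞) + 1) * E) +
          ((μ : ℝ≥0∞) + 3) * ∑ x, A.init x *
            ((2 * (μ : ℝ≥0∞) + 3) * ((K : ℝ≥0∞) + 1) ^ μ) := by
          gcongr with x _
          exact sum_bad A x
      _ = ((K : ℝ≥0∞) + 1) ^ μ * (((K : ℝ≥0∞) + 1) * E + K) := by
          rw [← Finset.sum_mul, sum_pmf]
          have : (K : ℝ≥0∞) = ((μ : ℝ≥0∞) + 3) * (2 * μ + 3) := by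
            rw [hK]
            push_cast
            ring
          calc _ = ((K : ℝ≥0∞) + 1) ^ μ * (((K : ℝ≥0∞) + 1) * E +
              ((μ : ℝ≥0∞) + 3) * (2 * μ + 3)) := by ring
            _ = _ := by rw [← this]
  have h2 : ((K : ℝ≥0∞) + 1) * ((μ : ℝ≥0∞) + 3) ≤ ((K : ℝ≥0∞) + 1) * E + K :=
    (ENNReal.mul_le_mul_iff_right hp0 hpt).mp h1
  have h3 : ((K : ℝ≥0∞) + 1) * ((μ : ℝ≥0∞) + 2 + ((K : ℝ≥0∞) + 1)⁻¹) + K ≤
      ((K : ℝ≥0∞) + 1) * E + K := by
    calc ((K : ℝ≥0∞) + 1) * ((μ : ℝ≥0∞) + 2 + ((K : ℝ≥0∞) + 1)⁻¹) + K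
        = ((K : ℝ≥0∞) + 1) * ((μ : ℝ≥0∞) + 2) +
          ((K : ℝ≥0∞) + 1) * ((K : ℝ≥0∞) + 1)⁻¹ + K := by ring
      _ = ((K : ℝ≥0∞) + 1) * ((μ : ℝ≥0∞) + 3) := by
          rw [ENNReal.mul_inv_cancel hc0 hct]
          ring
      _ ≤ _ := h2
  have h4 : ((K : ℝ≥0∞) + 1) * ((μ : ℝ≥0∞) + 2 + ((K : ℝ≥0∞) + 1)⁻¹) ≤ ((K : ℝ≥0∞) + 1) * E :=
    (ENNReal.add_le_add_iff_right (ENNReal.natCast_ne_top K)).mp h3
  exact (ENNReal.mul_le_mul_iff_right hc0 hct).mp h4

end Class

/-! ### The upper bound -/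

open Classical in
/-- The algorithm with memory `μ + 1`. -/
noncomputable def alg (μ K : ℕ) : Alg (Sp μ K) (μ + 1) where
  init := PMF.pure fun i => Sum.inl i
  query X := PMF.pure (Sum.inr ((X.map fun p => ((⌊p.2⌋₊ : ℕ) : ZMod (K + 1))).sum))
  remove X := if h : ∃ p, p ∈ X then PMF.pure h.choose else PMF.pure (Sum.inr 0, 0)
  remove_mem X hX p hp := by
    have h : ∃ p, p ∈ X := by
      rw [← Multiset.card_pos_iff_exists_mem, hX]
      omega
    rw [dif_pos h, PMF.support_pure, Set.mem_singleton_iff] at hp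
    rw [hp]
    exact h.choose_spec

theorem upper {μ K : ℕ} (v : Fin (μ + 1) → ZMod (K + 1)) :
    expT (alg μ K) (fv v) = (μ : ℝ≥0∞) + 2 := by
  classical
  have hq : (alg μ K).query (mem (fv v) fun i => Sum.inl i) = PMF.pure (mx v) := by
    change PMF.pure _ = _
    congr 1
    unfold mx mem
    rw [Multiset.map_map]
    congr 1
    rw [Finset.sum]
    congr 1
    refine Multiset.map_congr rfl fun i _ => ?_
    change ((⌊((v i).val : ℝ)⌋₊ : ℕ) : ZMod (K + 1)) = v i
    rw [Nat.floor_natCast, ZMod.natCast_zmod_val]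
  have h1 : ∀ r, alive (alg μ K) (fv v) (r + 1) (mem (fv v) fun i => Sum.inl i) = 0 := by
    intro r
    rw [alive]
    refine Finset.sum_eq_zero fun y _ => ?_
    rw [hq]
    by_cases hy : y = mx v
    · rw [if_pos ((maximiser_iff v y).mpr hy), mul_zero]
    · rw [PMF.pure_apply_of_ne _ _ hy, zero_mul]
  have h2 : ∑' r : ℕ, alive (alg μ K) (fv v) r (mem (fv v) fun i => Sum.inl i) = 1 := by
    rw [tsum_eq_single 0]
    · rfl
    · intro r hr
      obtain ⟨s, rfl⟩ := Nat.exists_eq_succ_of_ne_zero hr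
      exact h1 s
  unfold expT
  rw [Finset.sum_eq_single (fun i => Sum.inl i)]
  · have h3 : ¬ ∃ i : Fin (μ + 1), Maximiser (fv v) (Sum.inl i) := by
      rintro ⟨i, hi⟩
      rw [maximiser_iff] at hi
      exact absurd hi (by simp [mx])
    rw [if_neg h3, h2]
    change PMF.pure _ _ * _ = _
    rw [PMF.pure_apply_self, one_mul]
    push_cast
    ring
  · intro x _ hx
    change PMF.pure _ _ * _ = _
    rw [PMF.pure_apply_of_ne _ _ hx, zero_mul]
  · intro h
    exact absurd (Finset.mem_univ _) h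

/-- For every `μ` there are a finite set `S` and a class `F` of functions on `S` such that
`C_{μ+1}(F) ≤ μ + 2 < C_μ(F)`. -/
theorem result (μ : ℕ) : ∃ (S : Type) (_ : Fintype S) (F : Set (S → ℝ)),
    complexity (μ + 1) F ≤ (μ : ℝ≥0∞) + 2 ∧ (μ : ℝ≥0∞) + 2 < complexity μ F ∧
      complexity (μ + 1) F < complexity μ F := by
  classical
  obtain ⟨K, hK⟩ : ∃ K, K = (μ + 3) * (2 * μ + 3) := ⟨_, rfl⟩
  have h1 : complexity (μ + 1) (Set.range (fv (μ := μ) (K := K))) ≤ (μ : ℝ≥0∞) + 2 := by
    refine (iInf_le _ (alg μ K)).trans ?_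
    refine iSup₂_le ?_
    rintro f ⟨v, rfl⟩
    exact (upper v).le
  have h2 : (μ : ℝ≥0∞) + 2 < complexity μ (Set.range (fv (μ := μ) (K := K))) := by
    have h3 : (μ : ℝ≥0∞) + 2 + ((K : ℝ≥0∞) + 1)⁻¹ ≤
        complexity μ (Set.range (fv (μ := μ) (K := K))) := le_iInf fun A => lower A hK
    refine lt_of_lt_of_le ?_ h3
    refine ENNReal.lt_add_right (by simp) ?_
    rw [Ne, ENNReal.inv_eq_zero]
    simp
  exact ⟨Sp μ K, inferInstance, Set.range (fv (μ := μ) (K := K)), h1, h2, lt_of_le_of_lt h1 h2⟩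

end Pool.Agent.Results.MP_baa74b_lc.MemorySeparation
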